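import Pool.Agent.Q315.CC.Plain

/-!
# The two cone conjectures for products and finite quotients

For a `ℚ`-factorial projective variety `X` for which some `(X, Δ)` is a klt Calabi–Yau pair, let `Q1` be the
conjunction of the nef cone conjecture (for `Aut(X)`) and of the movable cone conjecture (for `PsAut(X)`).
This class of varieties is closed under quotients by arbitrary finite groups `G` of automorphisms (the
average of the `g^* Δ` is an invariant boundary). We show:

* `Q1` for `X` implies `Q1` for `X / G`, for every finite subgroup `G` of `Aut(X)`;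
* if the classes of a product decompose, then `Q1` holds for the product if and only if it holds for all
  factors;
* so `Q1` holds for all finite quotients of products of varieties for which it is known: surfaces with a
  klt Calabi–Yau boundary (Totaro), abelian varieties, irreducible holomorphic symplectic manifolds.

The descent to quotients holds for groups which are not arithmetic; it rests on the Siegel property of
fundamental domains for arbitrary groups (`Pool.Agent.Q315.CC.siegel`) and finiteness of nonabelian
cohomology of finite groups with values in the algebraic group which acts trivially on `N^1(X)`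
(`Pool.Agent.Q315.CC.descent`).

In the definitions of `Pool.Agent.Q315.CC.Plain`, for a variety `X`: `ℝ ^ n` is `N^1(X)`, `ℤ ^ n` are the
integral classes, `N` is the nef cone or the closed movable cone, `C` is its intersection with the effective
cone, `deg` is the intersection number with a power of an ample class, `Γ` is `Aut(X)` or `PsAut(X)`, acting
by push-forward. `HasDomain` is the statement (a) or (b) of Q1 for `X`.
-/

set_option autoImplicit false

namespace Pool.Agent.Results.MP_ad47bb_ag.ProductsAndQuotients

open Pool.Agent.Q315.CC.Pl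

/-- `X` has a fundamental domain for the nef cone (data `nef`) and for the movable cone (data `mov`). -/
def Q1 {V : Type*} (nef mov : V → ConeSpace) (X : V) : Prop := HasDomain (nef X) ∧ HasDomain (mov X)

/-- `Y` is the quotient of `X` by a finite group. -/
def Quot {V : Type*} (d : V → ConeSpace) (X Y : V) : Prop :=
  ∃ (G : Subgroup (d X).Γ) (q : (Fin (d Y).n → ℝ) → (Fin (d X).n → ℝ)), IsQuotient (d X) (d Y) G q

/-- `X` is the product of the `Z i` and the classes decompose; the projections are contractions. -/
def Prod {V : Type*} (d : V → ConeSpace) (X : V) {m : ℕ} (Z : Fin m → V) : Prop :=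
  ∃ p : ∀ i, (Fin (d (Z i)).n → ℝ) → (Fin (d X).n → ℝ),
    IsProduct (d X) (fun i => d (Z i)) p ∧ ∀ i, IsContraction (d X) (d (Z i)) (p i)

/-- **Finite quotients and products in the cone conjectures.** -/
theorem result {V : Type*} (nef mov : V → ConeSpace) (h1 : ∀ X, IsConeSpace (nef X))
    (h2 : ∀ X, IsConeSpace (mov X)) :
    (∀ X Y, Quot nef X Y → Quot mov X Y → Q1 nef mov X → Q1 nef mov Y) ∧
    (∀ (X : V) (m : ℕ) (Z : Fin m → V), Prod nef X Z → Prod mov X Z →
      (Q1 nef mov X ↔ ∀ i, Q1 nef mov (Z i))) ∧
    ∀ (X Y : V) (m : ℕ) (Z : Fin m → V), Prod nef X Z → Prod mov X Z → Quot nef X Y →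
      Quot mov X Y → (∀ i, Q1 nef mov (Z i)) → Q1 nef mov Y := by
  have quot : ∀ (d : V → ConeSpace), (∀ X, IsConeSpace (d X)) → ∀ X Y, Quot d X Y →
      HasDomain (d X) → HasDomain (d Y) := by
    rintro d h X Y ⟨G, q, hq⟩ hX
    exact quotient (h X) (h Y) hq hX
  have prod : ∀ (d : V → ConeSpace), (∀ X, IsConeSpace (d X)) → ∀ (X : V) (m : ℕ) (Z : Fin m → V),
      Prod d X Z → (HasDomain (d X) ↔ ∀ i, HasDomain (d (Z i))) := by
    rintro d h X m Z ⟨p, hp, hc⟩
    exact ⟨fun hX i => contraction (h X) (h (Z i)) (hc i) hX,
      fun hZ => product (h X) (fun i => h (Z i)) hp hZ⟩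
  have k1 : ∀ X Y, Quot nef X Y → Quot mov X Y → Q1 nef mov X → Q1 nef mov Y :=
    fun X Y a b hX => ⟨quot nef h1 X Y a hX.1, quot mov h2 X Y b hX.2⟩
  have k2 : ∀ (X : V) (m : ℕ) (Z : Fin m → V), Prod nef X Z → Prod mov X Z →
      (Q1 nef mov X ↔ ∀ i, Q1 nef mov (Z i)) := by
    intro X m Z a b
    unfold Q1
    rw [prod nef h1 X m Z a, prod mov h2 X m Z b]
    exact forall_and.symm
  exact ⟨k1, k2, fun X Y m Z a b c e hZ => k1 X Y c e ((k2 X m Z a b).2 hZ)⟩

end Pool.Agent.Results.MP_ad47bb_ag.ProductsAndQuotients
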