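import Pool.Agent.Y167.CCMain

set_option autoImplicit false

/-!
# The cone conjecture, parts (a) and (b), for pairs on quotients of complex tori by finite groups

Let `X = V / Γ` be a projective quotient of a complex torus (an abelian variety) by any finite group,
of any dimension. The group may contain reflections, so that `K_X` need not be trivial. Let `Δ` be an
effective divisor with real coefficients on `X` such that `K_X + Δ` is numerically trivial. The theorem
says that the cones `Nef^e(X)` and `Mov^e(X)` have rational polyhedral fundamental domains for the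
actions of `Aut(X)` and `PsAut(X)`, and also for the actions of `Aut(X, Δ)` and `PsAut(X, Δ)`, and that
the faces of these cones form finitely many orbits.

The proof compares the cones: the Chern form of an effective divisor is semidefinite, and every
rational semidefinite invariant form is the class of a base point free line bundle. Hence `Mov^e(X)`,
`Nef^e(X)` and `Eff(X)` coincide, and the reduction theory of the starting repository
(`Pool.Agent.Y167`) gives the fundamental domains, for every group which preserves a lattice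
commensurable with the lattice of the classes of line bundles.

`latt`, `IsTorusQuotient` and `LineBundle` are defined in `Pool.Agent.W594.SYZ.Defs2`; `IsChernForm`
and `IsPositiveForm` in `Pool.Agent.W594.SYZ.TQDefs`; `IsRamification` and `IsLogPluricanonical` in
`Pool.Agent.TH735.AQ.MirDefs`; `AffGrp`, `EffDiv`, `IsClass`, `NumTrivial` and `Normalizes` in
`Pool.Agent.Y167.Defs`; `LinGrp`, `Preserves`, `IsFundDomain`, `N1`, `form`, `integral`, `nefCone`,
`effCone` and `IsPullback` in `Pool.Agent.Y167.Stm`; `cone` in `Pool.Agent.Y167.ConeDef`; `IsFace` in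
`Pool.Agent.Y167.StmFace`. In the absolute case the linear subspace `E` of `V` of the general
definitions is `V` itself, embedded by the identity map.
-/

namespace Pool.Agent.Results.MP_ad47bb_ag.TorusQuotientPairs

open Filter Topology
open Pool.Agent.W594.SYZ2 Pool.Agent.TH735.AQ
open Pool.Agent.Y167 (AffGrp EffDiv NumTrivial Normalizes IsClass cone IsFace rel_abs)
open Pool.Agent.Y167.CC

variable {V : Type*} [NormedAddCommGroup V] [NormedSpace ℂ V]

/-- The space `N^1(X)`. -/
abbrev NS (Γ : AffGrp V) : Type _ := N1 Γ (LinearMap.id : V →ₗ[ℂ] V)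

/-- The set `B` does not contain the zero set of a holomorphic function, not even locally: every
nontrivial holomorphic function which vanishes at `v` has zeros outside `B` arbitrarily near to `v`.
For an analytic subset `B` of `V` this says that its codimension is at least `2`. -/
def NoHypersurface (B : Set V) : Prop :=
  ∀ (v : V) (f : V → ℂ), AnalyticAt ℂ f v → f v = 0 → (∃ᶠ x in 𝓝 v, f x ≠ 0) →
    ∃ᶠ x in 𝓝 v, f x = 0 ∧ x ∉ B

/-- The classes of the movable line bundles: the base locus has codimension at least `2`. -/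
def movable (Γ : AffGrp V) : Set (NS Γ) :=
  {x | ∃ L : LineBundle Γ, IsClass LinearMap.id L (form x) ∧
    NoHypersurface {v | ∀ s, L.IsSection s → s v = 0}}

/-- The cone `Nef^e(X)` of nef and effective classes. -/
def nefEff (Γ : AffGrp V) : Set (NS Γ) := nefCone Γ LinearMap.id ∩ effCone Γ LinearMap.id

/-- The cone `Mov^e(X)`: the intersection of the closure of the cone spanned by the movable classes
with the effective cone. -/
def movEff (Γ : AffGrp V) : Set (NS Γ) :=
  closure {x | ∃ S : Finset (NS Γ), ↑S ⊆ movable Γ ∧ x ∈ cone S} ∩ effCone Γ LinearMap.id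

/-- `𝒢` is a group of linear automorphisms of `N^1(X)` which preserves the cone `C` and a group `M` of
classes commensurable with the group of the classes of line bundles, and which contains the pullbacks
`f^*` by all automorphisms of `X` which are induced by affine transformations `f` of `V` and map `Δ` to
itself. For `C = Nef^e(X)` the images of `Aut(X)` and `Aut(X, Δ)` have these properties, and for
`C = Mov^e(X)` the images of `PsAut(X)` and `PsAut(X, Δ)` (`M` is the group of the classes of Weil
divisors). -/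
structure IsAutGroup {Γ : AffGrp V} {ι : Type*} [Fintype ι] (Δ : EffDiv Γ ι) (C : Set (NS Γ))
    (𝒢 : LinGrp (NS Γ)) : Prop where
  int : ∃ (M : AddSubgroup (NS Γ)) (k : ℕ), 0 < k ∧
    (∀ x ∈ integral Γ LinearMap.id, (k : ℝ) • x ∈ M) ∧
    (∀ x ∈ M, (k : ℝ) • x ∈ integral Γ LinearMap.id) ∧ ∀ g ∈ 𝒢, ∀ x ∈ M, g x ∈ M
  pres : Preserves 𝒢 C
  aff : ∀ f : V ≃ᵃ[ℂ] V, Normalizes Γ f → (∀ v, Δ.mul (f v) = Δ.mul v) →
    ∀ g, IsPullback f g → g ∈ 𝒢

/-- Some rational polyhedral cone in `C` is a fundamental domain for the action of `𝒢` on `C`, and the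
faces of `C` form finitely many orbits. -/
def ConeConjecture {Γ : AffGrp V} (C : Set (NS Γ)) (𝒢 : LinGrp (NS Γ)) : Prop :=
  (∃ S : Finset (NS Γ), ↑S ⊆ integral Γ LinearMap.id ∧ cone S ⊆ C ∧ IsFundDomain 𝒢 C (cone S)) ∧
    ∃ 𝓕 : Set (Set (NS Γ)), 𝓕.Finite ∧ (∀ F ∈ 𝓕, IsFace F C) ∧
      ∀ F, IsFace F C → ∃ g ∈ 𝒢, ∃ F' ∈ 𝓕, F = g '' F'

/-- Let `X = V / Γ` be a projective torus quotient and `Δ` an effective divisor with real coefficients
on `X` such that `K_X + Δ` is numerically trivial. (a) The cone conjecture for the action of the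
automorphisms on `Nef^e(X)`. (b) The cone conjecture for the action of the pseudo-automorphisms on
`Mov^e(X)`. (c) The cones `Nef^e(X)`, `Mov^e(X)` and `Eff(X)` coincide. -/
theorem result {V : Type*} [NormedAddCommGroup V] [NormedSpace ℂ V] [FiniteDimensional ℂ V]
    (Γ : AffGrp V) (hΓ : IsTorusQuotient Γ)
    (hproj : ∃ (L : LineBundle Γ) (H : V → V → ℂ), IsChernForm L H ∧ IsPositiveForm H)
    {ι : Type*} [Fintype ι] (Δ : EffDiv Γ ι) (hΔ : NumTrivial Δ (LinearMap.id : V →ₗ[ℂ] V)) :
    (∀ 𝒢 : LinGrp (NS Γ), IsAutGroup Δ (nefEff Γ) 𝒢 → ConeConjecture (nefEff Γ) 𝒢) ∧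
    (∀ 𝒢 : LinGrp (NS Γ), IsAutGroup Δ (movEff Γ) 𝒢 → ConeConjecture (movEff Γ) 𝒢) ∧
    nefEff Γ = effCone Γ LinearMap.id ∧ movEff Γ = effCone Γ LinearMap.id := by
  obtain ⟨L, H, hc, hp⟩ := hproj
  have R := rel_abs hΓ hc hp
  have hEN : effCone Γ (LinearMap.id : V →ₗ[ℂ] V) ⊆ nefCone Γ LinearMap.id := eff_nef hΓ
  have hsub : nefEff Γ ⊆ {x | ∃ S : Finset (NS Γ), ↑S ⊆ movable Γ ∧ x ∈ cone S} := by
    refine nefEff_sub_span R fun x L hL hb => ⟨L, hL, fun v f _ h0 _ hcon => ?_⟩
    refine hcon.self_of_nhds ⟨h0, fun hv => ?_⟩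
    obtain ⟨s, hs, hsv⟩ := hb v
    exact hsv (hv s hs)
  have hM : movEff Γ = nefEff Γ := by
    apply Set.Subset.antisymm
    · exact fun x hx => ⟨hEN hx.2, hx.2⟩
    · exact fun x hx => ⟨subset_closure (hsub hx), hx.2⟩
  have hE : nefEff Γ = effCone Γ LinearMap.id := Set.inter_eq_right.2 hEN
  have key : ∀ 𝒢 : LinGrp (NS Γ), IsAutGroup Δ (nefEff Γ) 𝒢 → ConeConjecture (nefEff Γ) 𝒢 := by
    intro 𝒢 h𝒢
    obtain ⟨M, k, hk, hM1, hM2, hM3⟩ := h𝒢.int
    obtain ⟨S, h1, h2, h3⟩ := core R Δ hΔ M hk hM1 hM2 𝒢 hM3 h𝒢.pres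
      (fun f hf _ hf3 g hg => h𝒢.aff f hf hf3 g hg)
    exact ⟨⟨S, h1, h2, h3⟩, finite_faces 𝒢 R h𝒢.pres h2 h3⟩
  refine ⟨key, ?_, hE, hM.trans hE⟩
  rw [hM]
  exact key

end Pool.Agent.Results.MP_ad47bb_ag.TorusQuotientPairs
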